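import Pool.Agent.Helper14.BSC.Stmts

/-!
# Module RK: the relative Koenigsmann theorem
-/

set_option autoImplicit false

namespace Pool.Agent.Helper14.BSC

theorem st_RK (hLOC : ST_LOC) (hT2 : ST_TAME2) (hT3 : ST_TAME3) (hBB : ST_BB) (hGAM : ST_GAM)
    (hPLC : ST_PLC) : ST_RK := by
  intro k Ω _ _ _ _ _ D p _ σ E₀ hfin hσ
  obtain ⟨Lc, hι, hE⟩ := hLOC k Ω p σ E₀ hfin hσ
  have h1 : ∃ O₁, TameV D Lc O₁ := by
    by_cases hp : p = 2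
    · exact hT3 k Ω D p (by omega) Lc
    · exact hT2 k Ω D p hp Lc
  obtain ⟨O₁, hT⟩ := h1
  obtain ⟨B, hB, hOB⟩ := hBB k Ω D p Lc O₁ hT.1
  have hN := hGAM k Ω D p Lc O₁ B hT hB hOB
  obtain ⟨P, hPE⟩ := hPLC k Ω D p Lc B hOB hN
  have hs : Lc.ι.comp (algebraMap k (Acl k Ω)) = σ := RingHom.ext hι
  subst hs
  refine ⟨P, ?_⟩
  rw [hPE]
  exact hE

end Pool.Agent.Helper14.BSC
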